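import Mathlib
import Pool.Agent.H381R4.BP.Stubs

set_option autoImplicit false
open MeasureTheory Matrix Filter Topology
open scoped ENNReal BigOperators Pointwise

namespace Pool.Agent.H487BP
open Pool.Agent.H381BP

theorem ae_ne0 (k : ℕ) : ∀ᵐ v : E (k + 1), v ≠ 0 := by
  rw [ae_iff]
  simp

theorem level (k n : ℕ) (hn : k + 1 < n) (A B t : ℝ) (hB : 0 < B) (ht : 0 < t) (htA : t < A) :
    volume {v : E (k + 1) | t < min A (B / ‖v‖ ^ n)} =
      om (k + 1) * ENNReal.ofReal ((B / t) ^ (((k + 1 : ℕ) : ℝ) / n)) := by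
  have hn0 : n ≠ 0 := by omega
  have hnR : (n : ℝ) ≠ 0 := by exact_mod_cast hn0
  have hBt : 0 < B / t := div_pos hB ht
  have h1 : volume {v : E (k + 1) | t < min A (B / ‖v‖ ^ n)} =
      volume (Metric.ball (0 : E (k + 1)) ((B / t) ^ ((1 : ℝ) / n))) := by
    refine measure_congr ?_
    filter_upwards [ae_ne0 k] with v hv
    have hv0 : 0 < ‖v‖ := norm_pos_iff.2 hv
    have hvn : 0 < ‖v‖ ^ n := pow_pos hv0 n
    refine propext ?_
    change t < min A (B / ‖v‖ ^ n) ↔ v ∈ Metric.ball (0 : E (k + 1)) ((B / t) ^ ((1 : ℝ) / n))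
    rw [lt_min_iff, mem_ball_zero_iff, lt_div_iff₀ hvn]
    constructor
    · rintro ⟨-, h⟩
      have h2 : ‖v‖ ^ n < B / t := by rw [lt_div_iff₀ ht]; linarith
      have h3 : ‖v‖ = (‖v‖ ^ n) ^ ((1 : ℝ) / n) := by
        rw [← Real.rpow_natCast, ← Real.rpow_mul hv0.le, mul_one_div_cancel hnR, Real.rpow_one]
      rw [h3]
      exact Real.rpow_lt_rpow hvn.le h2 (by positivity)
    · intro h
      refine ⟨htA, ?_⟩
      have h2 : ‖v‖ ^ n < ((B / t) ^ ((1 : ℝ) / n)) ^ n := pow_lt_pow_left₀ h hv0.le hn0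
      have h3 : ((B / t) ^ ((1 : ℝ) / n)) ^ n = B / t := by
        rw [← Real.rpow_natCast, ← Real.rpow_mul hBt.le, one_div_mul_cancel hnR, Real.rpow_one]
      rw [h3, lt_div_iff₀ ht] at h2
      linarith
  rw [h1, Measure.addHaar_ball _ _ (by positivity)]
  have hdim : Module.finrank ℝ (E (k + 1)) = k + 1 := by simp [E]
  rw [hdim, om, Measure.addHaar_closedBall_eq_addHaar_ball, mul_comm]
  congr 2
  rw [← Real.rpow_natCast, ← Real.rpow_mul hBt.le]
  congr 1
  push_cast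
  ring

theorem powint (p A : ℝ) (hp0 : 0 < p) (hp : p < 1) (hA : 0 < A) :
    ∫⁻ t in Set.Ioo 0 A, ENNReal.ofReal (t ^ (-p)) = ENNReal.ofReal (A ^ (1 - p) / (1 - p)) := by
  have hint : IntervalIntegrable (fun t : ℝ => t ^ (-p)) volume 0 A :=
    intervalIntegral.intervalIntegrable_rpow' (by linarith)
  have h1 : ∫ t in (0 : ℝ)..A, t ^ (-p) = A ^ (1 - p) / (1 - p) := by
    rw [integral_rpow (Or.inl (by linarith))]
    have : -p + 1 = 1 - p := by ring
    rw [this, Real.zero_rpow (by linarith), sub_zero]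
  rw [← h1, intervalIntegral.integral_of_le hA.le]
  rw [ofReal_integral_eq_lintegral_ofReal]
  · exact setLIntegral_congr Ioo_ae_eq_Ioc
  · exact (intervalIntegrable_iff_integrableOn_Ioc_of_le hA.le).1 hint
  · refine (ae_restrict_iff' measurableSet_Ioc).2 (ae_of_all _ fun t ht => ?_)
    exact Real.rpow_nonneg ht.1.le _

theorem T_RAD : S_RAD := by
  intro n m hm hmn a b ha0 hat hb0 hbt
  obtain ⟨k, rfl⟩ : ∃ k, m = k + 1 := ⟨m - 1, by omega⟩
  have hn0 : n ≠ 0 := by omega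
  have hnR : (0 : ℝ) < n := by exact_mod_cast Nat.pos_of_ne_zero hn0
  set A : ℝ := a.toReal with hA
  set B : ℝ := b.toReal with hB
  have hA0 : 0 < A := ENNReal.toReal_pos ha0 hat
  have hB0 : 0 < B := ENNReal.toReal_pos hb0 hbt
  have haA : a = ENNReal.ofReal A := (ENNReal.ofReal_toReal hat).symm
  have hbB : b = ENNReal.ofReal B := (ENNReal.ofReal_toReal hbt).symm
  set p : ℝ := ((k + 1 : ℕ) : ℝ) / n with hp
  have hkn : ((k + 1 : ℕ) : ℝ) < n := by exact_mod_cast hmn
  have hp0 : 0 < p := by positivity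
  have hp1 : p < 1 := (div_lt_one hnR).2 hkn
  have e1 : ∫⁻ v : E (k + 1), min a (b / ENNReal.ofReal (‖v‖ ^ n)) =
      ∫⁻ v : E (k + 1), ENNReal.ofReal (min A (B / ‖v‖ ^ n)) := by
    refine lintegral_congr_ae ?_
    filter_upwards [ae_ne0 k] with v hv
    have hvn : 0 < ‖v‖ ^ n := pow_pos (norm_pos_iff.2 hv) n
    rw [ENNReal.ofReal_mono.map_min, ENNReal.ofReal_div_of_pos hvn, ← haA, ← hbB]
  have hmeas : Measurable (fun v : E (k + 1) => min A (B / ‖v‖ ^ n)) :=
    measurable_const.min (measurable_const.div (measurable_norm.pow_const n))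
  rw [e1, lintegral_eq_lintegral_meas_lt volume
    (ae_of_all _ fun v => le_min hA0.le (by positivity)) hmeas.aemeasurable]
  have e2 : ∫⁻ t in Set.Ioi (0 : ℝ), volume {v : E (k + 1) | t < min A (B / ‖v‖ ^ n)} =
      ∫⁻ t in Set.Ioo (0 : ℝ) A, om (k + 1) * ENNReal.ofReal ((B / t) ^ p) := by
    have hsplit : ∀ t ∈ Set.Ioi (0 : ℝ), volume {v : E (k + 1) | t < min A (B / ‖v‖ ^ n)} =
        (Set.Iio A).indicator (fun t => om (k + 1) * ENNReal.ofReal ((B / t) ^ p)) t := by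
      intro t ht
      by_cases htA : t < A
      · rw [Set.indicator_of_mem (show t ∈ Set.Iio A from htA)]
        exact level k n hmn A B t hB0 ht htA
      · rw [Set.indicator_of_notMem (show t ∉ Set.Iio A from htA)]
        have : {v : E (k + 1) | t < min A (B / ‖v‖ ^ n)} = ∅ := by
          refine Set.eq_empty_iff_forall_notMem.2 fun v hv => ?_
          exact htA (lt_of_lt_of_le hv (min_le_left _ _))
        rw [this, measure_empty]
    rw [setLIntegral_congr_fun measurableSet_Ioi hsplit, setLIntegral_indicator measurableSet_Iio]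
    congr 1
    rw [Set.inter_comm, Set.Ioi_inter_Iio]
  rw [e2]
  have e3 : ∀ t ∈ Set.Ioo (0 : ℝ) A, om (k + 1) * ENNReal.ofReal ((B / t) ^ p) =
      (om (k + 1) * ENNReal.ofReal (B ^ p)) * ENNReal.ofReal (t ^ (-p)) := by
    intro t ht
    rw [mul_assoc, ← ENNReal.ofReal_mul (by positivity)]
    congr 2
    rw [Real.div_rpow hB0.le ht.1.le, Real.rpow_neg ht.1.le, div_eq_mul_inv]
  rw [setLIntegral_congr_fun measurableSet_Ioo e3, lintegral_const_mul' _ _ ?_,
    powint p A hp0 hp1 hA0]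
  · rw [haA, hbB, ENNReal.ofReal_rpow_of_pos hA0, ENNReal.ofReal_rpow_of_pos hB0]
    rw [mul_assoc, mul_assoc, mul_assoc, ← ENNReal.ofReal_mul (by positivity),
      ← ENNReal.ofReal_mul (by positivity), ← ENNReal.ofReal_mul ?_]
    · congr 2
      have h1p : 1 - p = ((n : ℝ) - ((k + 1 : ℕ) : ℝ)) / n := by
        rw [hp]; field_simp
      have hne : (n : ℝ) - ((k + 1 : ℕ) : ℝ) ≠ 0 := by linarith
      have h2 : (1 - p)⁻¹ = (n : ℝ) / ((n : ℝ) - ((k + 1 : ℕ) : ℝ)) := by
        rw [h1p, inv_div]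
      rw [div_eq_mul_inv (A ^ (1 - p)), h2]
      ring
    · exact div_nonneg hnR.le (by linarith)
  · refine ENNReal.mul_ne_top ?_ ENNReal.ofReal_ne_top
    rw [om]
    exact (measure_closedBall_lt_top).ne

end Pool.Agent.H487BP
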